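import Pool.Agent.H18.ChromAlien

set_option autoImplicit false

namespace Pool.Agent.Results.MP_3e1815_co.Counter

open Pool.Agent.H18.ChromRel

/-- Two connected graphs with `χ(F : -G) ≤ 2`, `χ(G : -F) ≤ 2` that are not 3-chromatically related. -/
theorem result : ∃ (α β : Type) (_ : Fintype α) (_ : Fintype β)
    (F : SimpleGraph α) (G : SimpleGraph β), 2 ≤ Fintype.card α ∧ 2 ≤ Fintype.card β ∧
    F.Connected ∧ G.Connected ∧ ChiLe F G 2 ∧ ChiLe G F 2 ∧ ¬ RelatedAt F G 3 :=
  ⟨_, _, inferInstance, inferInstance, claw, big, by simp, by simp, claw_conn, big_conn,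
    ⟨1, by norm_num, chi_claw_big⟩, ⟨2, le_rfl, chi_big_claw⟩, not_related_three⟩

end Pool.Agent.Results.MP_3e1815_co.Counter
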